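import Pool.Agent.MP_a43263_nt.JC.Qv
import Pool.Agent.MP_a43263_nt.JC.Mum
import Pool.Agent.MP_a43263_nt.JC.Str
import Pool.Agent.MP_a43263_nt.JM.Tri
import Mathlib.Analysis.Polynomial.Basic
import Pool.Agent.MP_a43263_nt.JM.All

-- ======== part 0: formerly Pool.Agent.MP_a43263_nt.UM.Base
section MrgPart0

/-! Mumford ideals for a squarefree polynomial of odd degree that need not split. -/

set_option autoImplicit false

noncomputable section

namespace Pool.Agent.MP_a43263_nt.UM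

open Polynomial JC JM

variable {K L : Type} [Field K] [Field L] {g : ℕ} {f : K[X]} {F : L[X]}

/-- monic, squarefree, of degree `2 g + 1` -/
structure Sq (g : ℕ) (f : K[X]) : Prop where
  mo : f.Monic
  dg : f.natDegree = 2 * g + 1
  sf : Squarefree f

/-- the calculus of Mumford ideals and norms -/
def MumP (g : ℕ) (f : K[X]) : Prop :=
  (f.Monic ∧ f.natDegree = 2 * g + 1 ∧ Squarefree f ∧ IsDomain (Rg f)) ∧
  (∀ U V : K[X], cj (MI f U V) = MI f U (-V)) ∧
  (∀ U V : K[X], U ∣ f - V ^ 2 → MI f U V * MI f U (-V) = PI f U) ∧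
  (∀ U U' V : K[X], U * U' ∣ f - V ^ 2 → MI f U V * MI f U' V = MI f (U * U') V) ∧
  (∀ V : K[X], MI f (f - V ^ 2) V = Ideal.span {⟨-V, 1⟩}) ∧
  (∀ U V V' : K[X], U ∣ V - V' → MI f U V = MI f U V') ∧
  (∀ U U' V : K[X], Associated U U' → MI f U V = MI f U' V) ∧ (∀ V : K[X], MI f 1 V = ⊤) ∧
  (∀ U V : K[X], U ∣ f - V ^ 2 → ∀ h : Rg f, h ∈ MI f U V ↔ U ∣ h.re + h.im * V) ∧
  (∀ U V : K[X], U.Monic → U ∣ f - V ^ 2 → Nu (MI f U V) U) ∧
  (∀ s : K[X], s.Monic → Nu (PI f s) (s ^ 2)) ∧ Nu (⊤ : Ideal (Rg f)) 1 ∧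
  (∀ (I J : Ideal (Rg f)) (u w : K[X]), Nu I u → Nu J w → Nu (I * J) (u * w)) ∧
  (∀ (I : Ideal (Rg f)) (u w : K[X]), Nu I u → Nu I w → u = w) ∧
  (∀ (I : Ideal (Rg f)) (u : K[X]), Nu I u → Nu (cj I) u ∧ Inv I ∧ Inv (cj I)) ∧
  ∀ (h : Rg f) (u : K[X]), h ≠ 0 →
    (Nu (Ideal.span {h}) u ↔ u.Monic ∧ Associated u (QuadraticAlgebra.norm h))

open JC.Mum in
theorem mum [CharZero K] (hc : Sq g f) : MumP g f := by
  obtain ⟨mo, dg, sf⟩ := hc
  refine ⟨⟨mo, dg, sf, domain mo.ne_zero ⟨g, dg⟩⟩, cj_MI, fun U V => MI_conj sf,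
    fun U U' V => MI_mul sf, MI_norm,
    fun U V V' h => le_antisymm (MI_le dvd_rfl (dvd_sub_comm.1 h)) (MI_le dvd_rfl h),
    fun U U' V h => le_antisymm (MI_le h.symm.dvd (by simp)) (MI_le h.dvd (by simp)), MI_one,
    fun U V => mem_MI, fun U V h1 h2 => ⟨h1, by rw [cj_MI, MI_conj sf h2]⟩,
    fun s hs => ⟨hs.pow 2, by rw [cj_PI, PI_mul, sq]⟩,
    ⟨monic_one, by rw [cj_top, PI_one, Ideal.top_mul]⟩,
    fun I J u w h1 h2 => ⟨h1.1.mul h2.1, ?_⟩,
    fun I u w h1 h2 => eq_of_monic_of_associated h1.1 h2.1 (PI_eq.1 (h1.2.symm.trans h2.2)),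
    fun I u h => ⟨⟨h.1, ?_⟩, ⟨cj I, _, c_ne h.1.ne_zero, h.2⟩,
      I, _, c_ne h.1.ne_zero, (mul_comm _ _).trans h.2⟩, fun h u _ => ?_⟩
  · rw [cj_mul, mul_mul_mul_comm, h1.2, h2.2, PI_mul]
  · rw [cj_cj, mul_comm, h.2]
  · rw [Nu, span_mul_cj, eq_comm, PI_eq]

theorem Sq.of_cv [CharZero K] {ι : Type} [Fintype ι] {a : ι → K} (h : Cv g a f) : Sq g f :=
  have k := (JC.mum K ι g a f h).1
  ⟨k.1, k.2.1, k.2.2.1⟩

open JC.RedA in
theorem red [CharZero K] (cv : Sq g f) :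
    (∀ x : CommRing.Pic (Rg f), ∃ U V : K[X], Red g f U V ∧ cl (MI f U V) = x) ∧
    ∀ U V U' V' : K[X], Red g f U V → Red g f U' V' → cl (MI f U V) = cl (MI f U' V') →
      U = U' ∧ V = V' := by
  have pic := JC.pic
  have str := JC.str
  have lcs := JC.lcs
  obtain ⟨⟨fm, fd, -, dom⟩, -, m3, m4, m5, m6, m7, -, m9, m10, -, -, m13, m14, -, m16⟩ :=
    mum cv
  obtain ⟨p1, p2, p3, p4⟩ := pic.1 (Rg f)
  have ng : ∀ {U V : K[X]}, U ∣ f - V ^ 2 → U ∣ f - (-V) ^ 2 := fun h => by rwa [neg_sq]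
  have iv : ∀ {U V : K[X]}, U ≠ 0 → U ∣ f - V ^ 2 → JC.Inv (MI f U V) := fun n h =>
    ⟨_, _, mk_ne n, m3 _ _ h⟩
  have ci : ∀ {U V : K[X]}, U ≠ 0 → U ∣ f - V ^ 2 → cl (MI f U V) * cl (MI f U (-V)) = 1 :=
    fun n h => by rw [← p3 _ _ (iv n h) (iv n (ng h)), m3 _ _ h]; exact cl_span pic (mk_ne n)
  constructor
  · have step : ∀ (n : ℕ) (U V : K[X]), U.natDegree < n → U.Monic → U ∣ f - V ^ 2 →
        ∃ U' V', Red g f U' V' ∧ cl (MI f U' V') = cl (MI f U V) := by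
      intro n
      induction n with
      | zero => exact fun _ _ h => absurd h (Nat.not_lt_zero _)
      | succ n ih =>
        intro U V hn hU hd
        have d1 : U ∣ V - V %ₘ U := ⟨V /ₘ U, by rw [modByMonic_eq_sub_mul_div V U]; ring⟩
        have d3 : (V %ₘ U).degree < U.degree := degree_modByMonic_lt V hU
        rw [m6 U V _ d1]
        generalize V %ₘ U = T at d1 d3
        have d2 : U ∣ f - T ^ 2 := by
          have : f - T ^ 2 = f - V ^ 2 + (V - T) * (V + T) := by ring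
          rw [this]
          exact dvd_add hd (d1.mul_right _)
        by_cases c : U.natDegree ≤ g
        · exact ⟨U, T, ⟨hU, d2, c, d3⟩, rfl⟩
        obtain ⟨w, hw⟩ := d2
        have n0 : f - T ^ 2 ≠ 0 := fun e => by
          have := congrArg natDegree (sub_eq_zero.1 e)
          rw [natDegree_pow, fd] at this
          omega
        have w0 : w ≠ 0 := fun e => n0 (by rw [hw, e, mul_zero])
        have t1 : T.natDegree < U.natDegree := by
          by_cases z : T = 0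
          · rw [z, natDegree_zero]
            omega
          · exact natDegree_lt_natDegree z d3
        have t2 : U.natDegree + w.natDegree ≤ max (2 * g + 1) (2 * T.natDegree) := by
          rw [← natDegree_mul hU.ne_zero w0, ← hw, ← fd, ← natDegree_pow]
          exact natDegree_sub_le _ _
        have as : Associated w (w * C w.leadingCoeff⁻¹) :=
          associated_mul_unit_right _ _ (isUnit_C.2 (inv_ne_zero (leadingCoeff_ne_zero.2 w0)).isUnit)
        have dw : w ∣ f - T ^ 2 := Dvd.intro_left U hw.symm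
        obtain ⟨U', V', r, e⟩ := ih (w * C w.leadingCoeff⁻¹) (-T)
          (by rw [← natDegree_eq_of_degree_eq (degree_eq_degree_of_associated as)]; omega)
          (monic_mul_leadingCoeff_inv w0) (as.dvd_iff_dvd_left.1 (ng dw))
        refine ⟨U', V', r, e.trans ?_⟩
        have k : cl (MI f U T) * cl (MI f w T) = 1 := by
          rw [← p3 _ _ (iv hU.ne_zero ⟨w, hw⟩) (iv w0 dw), m4 _ _ _ (hw ▸ dvd_rfl), ← hw, m5]
          exact cl_span pic fun e => one_ne_zero (congrArg QuadraticAlgebra.im e)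
        rw [← m7 _ _ _ as]
        exact mul_left_cancel ((ci w0 dw).trans ((mul_comm _ _).trans k).symm)
    intro x
    obtain ⟨I, hI, rfl⟩ := p1 x
    obtain ⟨s, U, V, hs, hU, hd, rfl⟩ := str K f I dom (by
      rintro rfl
      obtain ⟨J, b, b0, e⟩ := hI
      rw [Ideal.bot_mul, eq_comm, Ideal.span_singleton_eq_bot] at e
      exact b0 e)
    obtain ⟨U', V', r, e⟩ := step _ U V (Nat.lt_succ_self _) hU hd
    refine ⟨U', V', r, e.trans ?_⟩
    rw [PI, p3 _ _ (inv_span (mk_ne hs.ne_zero)) (iv hU.ne_zero hd),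
      cl_span pic (mk_ne hs.ne_zero), one_mul]
  · rintro U V U' V' ⟨a1, a2, a3, a4⟩ ⟨b1, b2, b3, b4⟩ e
    have i1 := iv a1.ne_zero a2
    have i2 := iv b1.ne_zero (ng b2)
    obtain ⟨x, y, x0, y0, e1⟩ := (p4 _ _ (inv_mul i1 i2) inv_top).1
      (by rw [p3 _ _ i1 i2, e, ci b1.ne_zero b2, p2])
    rw [Ideal.mul_top] at e1
    obtain ⟨h, -, rfl⟩ := Ideal.mem_span_singleton_mul.1 (e1 ▸ Ideal.mem_span_singleton_self y)
    rw [← Ideal.span_singleton_mul_span_singleton, Ideal.span_singleton_mul_right_inj x0] at e1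
    have h0 : h ≠ 0 := right_ne_zero_of_mul y0
    have as := ((m16 h (U * U') h0).1 (e1 ▸ m13 _ _ _ _ (m10 U V a1 a2) (m10 U' _ b1 (ng b2)))).2
    have dg := (lcs K f fm (fd ▸ odd_two_mul_add_one g)).2.2.2.2.1 h h0
    rw [← natDegree_eq_of_degree_eq (degree_eq_degree_of_associated as),
      natDegree_mul a1.ne_zero b1.ne_zero] at dg
    have hi : h.im = 0 := by
      by_contra c
      rw [if_neg (by rwa [degree_eq_bot])] at dg
      omega
    obtain ⟨p, q⟩ := h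
    obtain rfl : q = 0 := hi
    have e2 : Ideal.span {(⟨U', 0⟩ : Rg f)} * MI f U V = Ideal.span {(⟨p, 0⟩ : Rg f)} * MI f U' V' := by
      rw [← e1, mul_assoc, mul_comm (MI f U' (-V')), m3 _ _ b2, mul_comm]
      rfl
    have mm : ∀ A B : K[X], (⟨-B, 1⟩ : Rg f) ∈ MI f A B := fun A B => Ideal.subset_span (by simp)
    have e3 : Ideal.span {(⟨p, 0⟩ : Rg f)} = Ideal.span {⟨U', 0⟩} :=
      Ideal.span_singleton_eq_span_singleton.2 (associated_of_dvd_dvd
        (im_dvd (e2 ▸ Ideal.mul_mem_mul (Ideal.mem_span_singleton_self _) (mm U V)))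
        (im_dvd (e2.symm ▸ Ideal.mul_mem_mul (Ideal.mem_span_singleton_self _) (mm U' V'))))
    rw [e3, Ideal.span_singleton_mul_right_inj (mk_ne b1.ne_zero)] at e2
    obtain rfl : U = U' := m14 _ _ _ (m10 U V a1 a2) (e2 ▸ m10 U' V' b1 b2)
    refine ⟨rfl, ?_⟩
    have d := (m9 U V' b2 _).1 (e2 ▸ mm U V)
    simp only [one_mul] at d
    have := eq_zero_of_dvd_of_degree_lt d
      ((degree_add_le _ _).trans_lt (max_lt (by rwa [degree_neg]) b4))
    linear_combination -this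

open JM.Move in
theorem move [CharZero K] (cv : Sq g f) :
    (∀ (P : CommRing.Pic (Rg f)) (R : K[X]), R ≠ 0 →
      ∃ x, Mu f (2 * g + 1) x ∧ IsCoprime x.1 R ∧ cx f x = P) ∧
    (∀ n x, Mu f n x → cx f (nv x) = (cx f x)⁻¹) ∧ cx f (1, 0) = 1 ∧
    (∃ T : Finset (CommRing.Pic (Rg f)), (∀ t ∈ T, t * t = 1) ∧
      ∀ P, ∃ t ∈ T, ∃ x, Mu f g x ∧ IsCoprime x.1 f ∧ P = cx f x * t) ∧
    ∀ U : K[X], U.Monic → IsCoprime U f → {P | ∃ V, U ∣ f - V ^ 2 ∧ cx f (U, V) = P}.Finite := by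
  classical
  have pic := JC.pic
  obtain ⟨⟨fm, fd, sq, dom⟩, -, m3, m4, m5, m6, m7, m8, -⟩ := mum cv
  obtain ⟨-, p2, p3, -⟩ := pic.1 (Rg f)
  have rd := (red cv).1
  have ng : ∀ {U V : K[X]}, U ∣ f - V ^ 2 → U ∣ f - (-V) ^ 2 := fun h => by rwa [neg_sq]
  have iv : ∀ {U V : K[X]}, U ≠ 0 → U ∣ f - V ^ 2 → JC.Inv (MI f U V) := fun n h =>
    ⟨_, _, mk_ne n, m3 _ _ h⟩
  have ci : ∀ {U V : K[X]}, U ≠ 0 → U ∣ f - V ^ 2 → cl (MI f U V) * cl (MI f U (-V)) = 1 :=
    fun n h => by rw [← p3 _ _ (iv n h) (iv n (ng h)), m3 _ _ h]; exact cl_span pic (mk_ne n)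
  have ml : ∀ {U U' V : K[X]}, U * U' ≠ 0 → U * U' ∣ f - V ^ 2 →
      cl (MI f (U * U') V) = cl (MI f U V) * cl (MI f U' V) := fun n h => by
    rw [← m4 _ _ _ h]
    exact p3 _ _ (iv (left_ne_zero_of_mul n) ((dvd_mul_right _ _).trans h))
      (iv (right_ne_zero_of_mul n) ((dvd_mul_left _ _).trans h))
  refine ⟨fun P R R0 => ?_, fun n x hx => eq_inv_of_mul_eq_one_right (ci hx.1.ne_zero hx.2.1),
    by rw [cx, m8, p2], ?_, fun U hU _ => ?_⟩
  · obtain ⟨U, V, ⟨hU, ⟨w, hw⟩, dU, dV⟩, e⟩ := rd P⁻¹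
    have dV' : V.natDegree ≤ g := (natDegree_le_natDegree dV.le).trans dU
    have l1 : (V ^ 2).natDegree < f.natDegree := by
      rw [natDegree_pow, fd]
      omega
    have mo : (U * w).Monic := hw ▸ fm.sub_of_left (degree_lt_degree l1)
    have wm : w.Monic := hU.of_mul_monic_left mo
    have wd : U.natDegree + w.natDegree = 2 * g + 1 := by
      rw [← hU.natDegree_mul wm, ← hw, natDegree_sub_eq_left_of_natDegree_lt l1, fd]
    have sq' : Squarefree (U * w + V ^ 2) := by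
      rw [← hw, sub_add_cancel]
      exact sq
    have : Infinite K := Infinite.of_injective _ Nat.cast_injective
    obtain ⟨l, -, hl⟩ := Set.infinite_univ.exists_notMem_finite (pencil sq' R R0)
    have hl := not_not.1 hl
    have l2 : (C (2 * l) * V + C (l ^ 2) * U).natDegree < w.natDegree :=
      (natDegree_add_le_of_degree_le ((natDegree_C_mul_le _ _).trans dV')
        ((natDegree_C_mul_le _ _).trans dU)).trans_lt (by omega)
    rw [sub_sub] at hl
    have e1 : f - (V + C l * U) ^ 2 = U * (w - (C (2 * l) * V + C (l ^ 2) * U)) := by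
      simp only [C_mul, C_pow]
      rw [show (C 2 : K[X]) = 2 from rfl]
      linear_combination hw
    have m1 := wm.sub_of_left (degree_lt_degree l2)
    have d1 := natDegree_sub_eq_left_of_natDegree_lt l2
    generalize w - (C (2 * l) * V + C (l ^ 2) * U) = u at hl e1 m1 d1
    refine ⟨(u, V + C l * U), ⟨m1, Dvd.intro_left _ e1.symm, by simp only; omega⟩, hl, ?_⟩
    have k := ml (mul_ne_zero hU.ne_zero m1.ne_zero) e1.symm.dvd
    rw [← e1, m5, cl_span pic fun e => one_ne_zero (congrArg QuadraticAlgebra.im e),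
      m6 U _ V ⟨C l, by ring⟩, e] at k
    exact (inv_mul_eq_one.1 k.symm).symm
  · refine ⟨((fin_dvd fm.ne_zero).image fun d => cl (MI f d 0)).toFinset, fun t ht => ?_,
      fun P => ?_⟩
    · obtain ⟨d, hd, rfl⟩ := (Set.Finite.mem_toFinset _).1 ht
      have := ci (V := 0) hd.1.ne_zero (by simpa using hd.2)
      rwa [neg_zero] at this
    · obtain ⟨U, V, ⟨hU, hd, dU, -⟩, rfl⟩ := rd P
      obtain ⟨d, dm, as⟩ := exists_monic (d := EuclideanDomain.gcd U f)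
        fun e => hU.ne_zero (EuclideanDomain.gcd_eq_zero_iff.1 e).1
      have d2 : d ∣ f := as.dvd_iff_dvd_left.1 (EuclideanDomain.gcd_dvd_right U f)
      obtain ⟨u, hu⟩ : d ∣ U := as.dvd_iff_dvd_left.1 (EuclideanDomain.gcd_dvd_left U f)
      have d3 : ∀ p, p ∣ U → p ∣ f → p ∣ d := fun p h k =>
        (EuclideanDomain.dvd_gcd h k).trans as.dvd
      rw [mul_comm] at hu
      subst hu
      have um : u.Monic := dm.of_mul_monic_right hU
      have vv : ∀ p, p ∣ u * d → p ∣ f → p ∣ V := fun p h k =>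
        (sq.squarefree_of_dvd k).isRadical 2 V (by simpa using dvd_sub k (h.trans hd))
      refine ⟨cl (MI f d 0), (Set.Finite.mem_toFinset _).2 ⟨d, ⟨dm, d2⟩, rfl⟩, (u, V),
        ⟨um, (dvd_mul_right _ _).trans hd, ?_⟩, ?_, ?_⟩
      · rw [um.natDegree_mul dm] at dU
        simp only
        omega
      · refine isCoprime_of_irreducible_dvd (fun h => fm.ne_zero h.2) fun p hp h k => ?_
        have h1 := vv p (h.mul_right _) k
        have h2 : p * p ∣ f - V ^ 2 := (mul_dvd_mul h (d3 p (h.mul_right _) k)).trans hd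
        have h3 : p * p ∣ V ^ 2 := by
          rw [pow_two]
          exact mul_dvd_mul h1 h1
        exact hp.not_isUnit (sq p (by simpa using dvd_add h2 h3))
      · rw [ml hU.ne_zero hd, m6 d V 0 (by simpa using vv d (dvd_mul_left _ _) d2)]
        rfl
  · by_cases c : ∃ W, U ∣ f - W ^ 2
    swap
    · exact Set.finite_empty.subset fun P ⟨V, h, _⟩ => c ⟨V, h⟩
    obtain ⟨W, hW⟩ := c
    refine (((fin_dvd hU.ne_zero).prod (fin_dvd hU.ne_zero)).image
      fun x => cl (MI f x.1 W) * cl (MI f x.2 (-W))).subset ?_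
    rintro P ⟨V, hV, rfl⟩
    have e : (V - W) * (V - -W) = (f - W ^ 2) - (f - V ^ 2) := by ring
    obtain ⟨d, e, hd, he, rfl⟩ := exists_dvd_and_dvd_of_dvd_mul (e ▸ dvd_sub hW hV)
    obtain ⟨d', dm, da⟩ := exists_monic (left_ne_zero_of_mul hU.ne_zero)
    obtain ⟨e', em, ea⟩ := exists_monic (right_ne_zero_of_mul hU.ne_zero)
    refine ⟨(d', e'), ⟨⟨dm, da.symm.dvd.mul_right _⟩, em, ea.symm.dvd.mul_left _⟩, ?_⟩
    simp only [cx]
    rw [ml hU.ne_zero hV, m6 _ _ _ hd, m6 _ _ _ he, m7 _ _ _ da, m7 _ _ _ ea]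

open RatA in
/-- the class of a Mumford ideal is moved coefficientwise -/
theorem cl_map [CharZero K] [CharZero L] (h : Sq g f) (h' : Sq g F)
    (φ : K →+* L) (e : f.map φ = F) {U V : K[X]} (h1 : U.Monic) (h2 : U ∣ f - V ^ 2) :
    CommRing.Pic.mapRingHom (rmap φ e) (cl (MI f U V)) = cl (MI F (U.map φ) (V.map φ)) := by
  obtain ⟨⟨-, -, -, d⟩, -, -, -, -, -, -, -, -, m, -, -, -, -, n, -⟩ := mum h
  have d' := (mum h').1.2.2.2
  rw [JC.pic.2 _ _ _ (rmap_inj φ e) _ (n _ _ (m U V h1 h2)).2.1, map_MI]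

open RatA in
/-- an invariant class has a rational reduced representative -/
theorem rat [CharZero K] {F : (AlgebraicClosure K)[X]} (h' : Sq g F)
    (e : f.map (algebraMap K _) = F) (P : CommRing.Pic (Rg F))
    (hP : ∀ (σ : AlgebraicClosure K ≃ₐ[K] AlgebraicClosure K)
      (e : F.map (σ : AlgebraicClosure K →+* AlgebraicClosure K) = F),
        CommRing.Pic.mapRingHom (rmap _ e) P = P) :
    ∃ U V : K[X], Red g f U V ∧
      cl (MI F (U.map (algebraMap K _)) (V.map (algebraMap K _))) = P := by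
  obtain ⟨U, V, hr, rfl⟩ := (red h').1 P
  have k : ∀ σ : AlgebraicClosure K ≃ₐ[K] AlgebraicClosure K,
      U.map (σ : AlgebraicClosure K →+* AlgebraicClosure K) = U ∧
        V.map (σ : AlgebraicClosure K →+* AlgebraicClosure K) = V := by
    intro σ
    have e' : F.map (σ : AlgebraicClosure K →+* AlgebraicClosure K) = F := by
      rw [← e, Polynomial.map_map]
      congr 1
      exact RingHom.ext fun x => σ.commutes x
    exact (red h').2 _ _ _ _ (red_map _ e' hr) hr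
      ((cl_map h' h' _ e' hr.1 hr.2.1).symm.trans (hP σ e'))
  obtain ⟨U0, rfl⟩ := lift fun σ => (k σ).1
  obtain ⟨V0, rfl⟩ := lift fun σ => (k σ).2
  refine ⟨U0, V0, ⟨monic_of_injective (RingHom.injective _) hr.1, (dvd_map _ e).1 hr.2.1, ?_, ?_⟩,
    rfl⟩
  · simpa using hr.2.2.1
  · simpa using hr.2.2.2

end Pool.Agent.MP_a43263_nt.UM

end
end MrgPart0

-- ======== part 1: formerly Pool.Agent.MP_a43263_nt.UM.Pair
section MrgPart1

/-! Mordell-Weil for Jacobians, roots in the algebraic closure: the pairing. -/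

set_option autoImplicit false

noncomputable section

namespace Pool.Agent.MP_a43263_nt.UM

open Polynomial Finset Filter JC JM

variable {ι : Type} [Fintype ι] {g : ℕ} {a : ι → Qb} {f : ℚ[X]} {S : Sys} {κ : Pc → ℝ}

/-- the constants of the places -/
def Kq (S : Sys) (a : ι → Qb) (κ : Pc → ℝ) : Prop :=
  (∀ v, Ok (S.w v) (κ v) a) ∧ 2 ≤ κ none ∧ ∀ᶠ v in cofinite, κ v = 1

theorem exists_kq (S : Sys) (ha : Function.Injective a) : ∃ κ, Kq S a κ := by
  classical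
  set T : Finset Qb := (insert 2 (univ.image a ∪ univ.image fun x : ι × ι => a x.1 - a x.2)).erase 0
  set u : Pc → Qb → ℝ := fun v x => max 1 (S.w v x) * max 1 (S.w v x)⁻¹
  set c : Pc → ℝ := fun v => v.elim 2 fun _ => 1
  have u1 : ∀ v x, 1 ≤ u v x := fun v x =>
    one_le_mul_of_one_le_of_one_le (le_max_left _ _) (le_max_left _ _)
  have c1 : ∀ v, 1 ≤ c v := fun v => by rcases v with _ | p <;> simp [c]
  have p1 : ∀ v, 1 ≤ ∏ x ∈ T, u v x := fun v =>
    prod_induction _ (fun y => 1 ≤ y) (fun _ _ => one_le_mul_of_one_le_of_one_le) le_rfl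
      fun x _ => u1 v x
  have le : ∀ v, ∀ x ∈ T, u v x ≤ c v * ∏ x ∈ T, u v x := fun v x hx => by
    rw [← mul_prod_erase _ _ hx]
    refine le_trans ?_ (le_mul_of_one_le_left (mul_nonneg (zero_le_one.trans (u1 v x))
      (prod_nonneg fun y _ => zero_le_one.trans (u1 v y))) (c1 v))
    exact le_mul_of_one_le_right (zero_le_one.trans (u1 v x))
      (prod_induction _ (fun y => 1 ≤ y) (fun _ _ => one_le_mul_of_one_le_of_one_le) le_rfl
        fun y _ => u1 v y)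
  have k1 : ∀ v, 1 ≤ c v * ∏ x ∈ T, u v x := fun v =>
    one_le_mul_of_one_le_of_one_le (c1 v) (p1 v)
  have lo : ∀ v, ∀ x ∈ T, 1 ≤ (c v * ∏ x ∈ T, u v x) * S.w v x := fun v x hx => by
    have h0 : 0 < S.w v x := (S.w v).pos (ne_of_mem_erase hx)
    have h1 : (S.w v x)⁻¹ ≤ u v x := (le_max_right _ _).trans
      (le_mul_of_one_le_left (zero_le_one.trans (le_max_left _ _)) (le_max_left _ _))
    rw [← inv_mul_cancel₀ h0.ne']
    exact mul_le_mul_of_nonneg_right (h1.trans (le v x hx)) h0.le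
  have k2 : 2 ≤ c none * ∏ x ∈ T, u none x := le_mul_of_one_le_right zero_le_two (p1 none)
  refine ⟨fun v => c v * ∏ x ∈ T, u v x, fun v => ⟨?_, lo v 2 (by simp [T]), fun i => ?_,
    fun i k h => lo v _ ?_⟩, k2, ?_⟩
  · rcases v with _ | p
    · exact SysAux.tri_two _ k2
    · exact SysAux.tri_na (S.na p) (k1 _)
  · by_cases z : a i = 0
    · rw [z, map_zero]
      exact zero_le_one.trans (k1 v)
    · refine le_trans ?_ (le v (a i) (by simp [T, z]))
      exact (le_max_right _ _).trans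
        (le_mul_of_one_le_right (zero_le_one.trans (le_max_left _ _)) (le_max_left _ _))
  · refine mem_erase.2 ⟨sub_ne_zero.2 (ha.ne h), mem_insert_of_mem (mem_union_right _ ?_)⟩
    exact mem_image.2 ⟨(i, k), mem_univ _, rfl⟩
  · have h1 : ∀ᶠ v in cofinite, ∀ x ∈ T, S.w v x = 1 :=
      (eventually_all_finset T).2 fun x hx => (JM.sum S).1 x (ne_of_mem_erase hx)
    filter_upwards [h1, (Set.finite_singleton (none : Pc)).compl_mem_cofinite] with v hv hn
    rw [prod_eq_one fun x hx => by simp [u, hv x hx], mul_one]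
    rcases v with _ | p
    · exact absurd rfl hn
    · rfl

theorem neg_pts (h : Sq g f) : ∃ x : ℕ → ℚ, Function.Injective x ∧ ∀ j, f.eval (x j) ≤ -1 := by
  have d : (f.comp (-X)).natDegree = 2 * g + 1 := by
    rw [natDegree_comp, h.dg]
    simp
  have l : (f.comp (-X)).leadingCoeff ≤ 0 := by
    rw [comp_neg_X_leadingCoeff_eq, h.dg, h.mo.leadingCoeff, pow_succ, pow_mul]
    simp
  obtain ⟨T, hT⟩ := eventually_atTop.1 ((tendsto_atBot_of_leadingCoeff_nonpos _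
    (natDegree_pos_iff_degree_pos.1 (by omega)) l).eventually_le_atBot (-1))
  refine ⟨fun j => -(T + j), fun i j e => ?_, fun j => ?_⟩
  · have : (i : ℚ) = j := by simp only at e; linarith
    exact_mod_cast this
  · simpa [eval_comp] using hT (T + j) (le_add_of_nonneg_right (Nat.cast_nonneg j))

open JM.Norm in
theorem ar (S : Sys) (h : Sq g f) (n : ℕ) :
    ∃ c : ℝ, ∀ A B : ℚ[X], A.natDegree ≤ n → B.natDegree ≤ n →
      max (pn (S.w none) (fK A Qb)) (pn (S.w none) (fK B Qb)) ^ 2 ≤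
        c * pn (S.w none) (fK (A ^ 2 - f * B ^ 2) Qb) := by
  obtain ⟨x, hx, hf⟩ := neg_pts h
  have hd := h.dg.le
  set D := 2 * n + (2 * g + 1)
  set E : ℕ → ℝ := fun j => ∑ i ∈ range (D + 1), |(x j : ℝ)| ^ i
  set L : ℕ → ℝ := fun j => pn (S.w none) (fK (Lagrange.basis (range (n + 1)) x j) Qb)
  refine ⟨(∑ j ∈ range (n + 1), √(E j) * L j) ^ 2, fun A B hA hB => ?_⟩
  set R := pn (S.w none) (fK (A ^ 2 - f * B ^ 2) Qb)
  have hR : 0 ≤ R := pn_nonneg _ _
  have hN : (A ^ 2 - f * B ^ 2).natDegree ≤ D := by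
    refine (natDegree_sub_le _ _).trans (max_le (natDegree_pow_le.trans (by omega)) ?_)
    exact natDegree_mul_le.trans (by have := natDegree_pow_le (p := B) (n := 2); omega)
  have key : ∀ P : ℚ[X], P.natDegree ≤ n →
      (∀ j, P.eval (x j) ^ 2 ≤ (A ^ 2 - f * B ^ 2).eval (x j)) →
      pn (S.w none) (fK P Qb) ≤ (∑ j ∈ range (n + 1), √(E j) * L j) * √R := fun P hP h => by
    refine (lag S n x hx P hP (fun j => √(E j) * √R) fun j => ?_).trans (le_of_eq ?_)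
    · rw [mul_comm, ← Real.sqrt_mul hR, mul_comm]
      refine Real.abs_le_sqrt (le_trans ?_ ((le_abs_self _).trans (ev_le S _ (x j) hN)))
      exact_mod_cast h j
    · rw [sum_mul]
      exact sum_congr rfl fun j _ => by ring
  have kA := key A hA fun j => by
    simp only [eval_sub, eval_mul, eval_pow]
    nlinarith [hf j, sq_nonneg (B.eval (x j))]
  have kB := key B hB fun j => by
    simp only [eval_sub, eval_mul, eval_pow]
    nlinarith [hf j, sq_nonneg (B.eval (x j)), sq_nonneg (A.eval (x j))]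
  refine (pow_le_pow_left₀ ((pn_nonneg _ _).trans (le_max_left _ _)) (max_le kA kB) 2).trans ?_
  rw [mul_pow, Real.sq_sqrt hR]

theorem norm (hs : Sq g f) (hc : Cv g a (fK f Qb)) (hκ : Kq S a κ)
    (hi : ∀ (p : Nat.Primes) i, S.w (some p) (a i) ≤ 1) (n : ℕ) :
    ∃ M : ℕ, ∀ (v : Pc) (A B : ℚ[X]), A.natDegree ≤ n → B.natDegree ≤ n →
      max (pn (S.w v) (fK A Qb)) (pn (S.w v) (fK B Qb)) ^ 2 ≤
        κ v ^ M * pn (S.w v) (fK (A ^ 2 - f * B ^ 2) Qb) := by
  obtain ⟨c, h⟩ := ar S hs n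
  obtain ⟨M, hM⟩ := pow_unbounded_of_one_lt c (one_lt_two (α := ℝ))
  refine ⟨M, fun v A B hA hB => ?_⟩
  rcases v with _ | p
  · exact (h A B hA hB).trans (mul_le_mul_of_nonneg_right
      (hM.le.trans (pow_le_pow_left₀ zero_le_two hκ.2.1 M)) (pn_nonneg _ _))
  · have e : fK (A ^ 2 - f * B ^ 2) Qb = fK A Qb ^ 2 - fp a * fK B Qb ^ 2 := by
      rw [← hc.eq]
      simp [fK]
    rw [e]
    exact (Norm.na (S.na p) _ (hi p) hc.card _ _).trans
      (le_mul_of_one_le_left (pn_nonneg _ _) (one_le_pow₀ (hκ.1 _).tri.1))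

theorem prin (h : Sq g f) (h' : Cv g a (fK f Qb)) (n : ℕ) :
    (∀ x, Mu f n x → (pts x).card = x.1.natDegree ∧ ∀ p ∈ pts x, Oc (fK f Qb) p) ∧
    ∀ y₁ y₂ y₃, Mu f n y₁ → Mu f n y₂ → Mu f n y₃ → cx f y₁ * cx f y₂ * cx f y₃ = 1 →
      ∃ (A B : ℚ[X]) (c : ℚ), c ≠ 0 ∧ A ^ 2 - f * B ^ 2 = C c * (y₁.1 * y₂.1 * y₃.1) ∧
        A.natDegree ≤ 3 * n ∧ B.natDegree ≤ 3 * n ∧
        (⟨fK A Qb, fK B Qb⟩ : Rg (fK f Qb)) ∈
          ((pts y₁ + pts y₂ + pts y₃).map (mx (fK f Qb))).prod ∧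
        ∀ p, Oc (fK f Qb) p → p ∉ pts y₁ + pts y₂ + pts y₃ →
          ev p (⟨fK A Qb, fK B Qb⟩ : Rg (fK f Qb)) ≠ 0 := by
  have pic := JC.pic
  have lcs := JC.lcs
  have dv : ∀ x, Mu f n x → fK x.1 Qb ∣ fK f Qb - fK x.2 Qb ^ 2 := fun x hx =>
    (RatA.dvd_map (Rat.castHom Qb) rfl).2 hx.2.1
  have mp : ∀ x, Mu f n x → (MI f x.1 x.2).map (rmap (Rat.castHom Qb) rfl) =
      ((pts x).map (mx (fK f Qb))).prod := fun x hx => by
    have e : ((fK x.1 Qb).roots.map fun t => X - C t).prod = fK x.1 Qb :=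
      (IsAlgClosed.splits _).eq_prod_roots_of_monic (hx.1.map _) |>.symm
    rw [RatA.map_MI, pts, Multiset.map_map]
    have := Prin.split JC.mum h' (fK x.2 Qb) (fK x.1 Qb).roots (e.symm ▸ dv x hx)
    rw [e] at this
    exact this
  refine ⟨fun x hx => ⟨?_, fun p hp => ?_⟩, fun y₁ y₂ y₃ h1 h2 h3 e => ?_⟩
  · rw [pts, Multiset.card_map, IsAlgClosed.card_roots_eq_natDegree, natDegree_map]
  · obtain ⟨t, ht, rfl⟩ := Multiset.mem_map.1 hp
    have := eval_eq_zero_of_dvd_of_eval_eq_zero (dv x hx) (isRoot_of_mem_roots ht)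
    rw [eval_sub, eval_pow] at this
    exact (sub_eq_zero.1 this).symm
  obtain ⟨⟨f1, f2, -, dom⟩, -, -, -, -, -, -, -, -, m10, -, m12, m13, -, m15, m16⟩ :=
    mum h
  obtain ⟨-, p2, p3, p4⟩ := pic.1 (Rg f)
  have n1 := m10 _ _ h1.1 h1.2.1
  have n2 := m10 _ _ h2.1 h2.2.1
  have n3 := m10 _ _ h3.1 h3.2.1
  have n12 := m13 _ _ _ _ n1 n2
  have n4 := m13 _ _ _ _ n12 n3
  obtain ⟨u, b, u0, b0, k⟩ := (p4 _ _ (m15 _ _ n4).2.1 (m15 _ _ m12).2.1).1 (by
    rw [p3 _ _ (m15 _ _ n12).2.1 (m15 _ _ n3).2.1, p3 _ _ (m15 _ _ n1).2.1 (m15 _ _ n2).2.1, p2]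
    exact e)
  rw [Ideal.mul_top] at k
  obtain ⟨z, -, rfl⟩ := Ideal.mem_span_singleton_mul.1 (k ▸ Ideal.mem_span_singleton_self b)
  rw [← Ideal.span_singleton_mul_span_singleton, Ideal.span_singleton_mul_right_inj u0] at k
  have z0 : z ≠ 0 := right_ne_zero_of_mul b0
  obtain ⟨m, w, hw⟩ := (m16 z _ z0).1 (k ▸ n4)
  obtain ⟨c, hc, hc'⟩ := Polynomial.isUnit_iff.1 w.isUnit
  have dg : (QuadraticAlgebra.norm z).natDegree ≤ 3 * n := by
    rw [← hw, ← hc', natDegree_mul_C hc.ne_zero, (h1.1.mul h2.1).natDegree_mul h3.1,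
      h1.1.natDegree_mul h2.1]
    have := h1.2.2
    have := h2.2.2
    have := h3.2.2
    omega
  rw [(lcs ℚ f f1 (f2 ▸ odd_two_mul_add_one g)).2.2.2.2.1 z z0] at dg
  have sp : Ideal.span {(⟨fK z.re Qb, fK z.im Qb⟩ : Rg (fK f Qb))} =
      ((pts y₁ + pts y₂ + pts y₃).map (mx (fK f Qb))).prod := by
    rw [Multiset.map_add, Multiset.map_add, Multiset.prod_add, Multiset.prod_add, ← mp _ h1,
      ← mp _ h2, ← mp _ h3, ← Ideal.map_mul, ← Ideal.map_mul, k, Ideal.map_span,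
      Set.image_singleton]
    rfl
  refine ⟨z.re, z.im, c, hc.ne_zero, ?_, ?_, ?_, sp ▸ Ideal.mem_span_singleton_self _,
    fun p hp np e0 => ?_⟩
  · rw [hc', mul_comm (w : ℚ[X]), hw, QuadraticAlgebra.norm_def]
    ring
  · split_ifs at dg <;> omega
  · split_ifs at dg with t
    · rw [degree_eq_bot.1 t, natDegree_zero]
      omega
    · omega
  · have pr := RingHom.ker_isPrime (Prin.evh hp)
    have le : ((pts y₁ + pts y₂ + pts y₃).map (mx (fK f Qb))).prod ≤ RingHom.ker (Prin.evh hp) :=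
      sp ▸ (Ideal.span_singleton_le_iff_mem _).2 e0
    obtain ⟨q, q1, q2⟩ := (pr.multiset_prod_map_le _).1 le
    exact np (Prin.eq_of_le hp q2 ▸ q1)

open JM.Glob in
theorem glob (h0 : Sq g f) (hC : Cv g a (fK f Qb)) (hK : Kq S a κ) (n : ℕ) : ∃ c : ℝ,
    (∀ x y, be S g x y = be S g y x) ∧ (∀ x, be S g x (1, 0) = 0) ∧
    (∀ x y, IsCoprime x.1 y.1 → Dj x y) ∧
    (∀ x, Mu f n x → IsCoprime x.1 f → Dj x (nv x)) ∧
    (∀ x y, Mu f n x → Mu f n y → IsCoprime x.1 y.1 → be S g x y + be S g x (nv y) ≤ c) ∧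
    ∀ x, Mu f g x → IsCoprime x.1 f → be S g x (nv x) + 2 * Ht S x.1 ≤ c := by
  have up := JM.up JM.gau
  have hs := JM.sum
  obtain ⟨M, hM⟩ := up g
  have U := fun v => hM Qb ι (S.w v) (κ v) _ _ hC (hK.1 v)
  have k1 : ∀ v, 1 ≤ κ v := fun v => (hK.1 v).tri.1
  have k0 : ∀ v, 0 ≤ (M : ℝ) * Real.log (κ v) := fun v =>
    mul_nonneg (Nat.cast_nonneg _) (Real.log_nonneg (k1 v))
  have kf : ∀ᶠ v in cofinite, (M : ℝ) * Real.log (κ v) = 0 :=
    hK.2.2.mono fun v hv => by rw [hv, Real.log_one, mul_zero]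
  have L0 : 0 ≤ ∑ᶠ v, (M : ℝ) * Real.log (κ v) := finsum_nonneg k0
  have n0 : (0 : ℝ) ≤ n * n := by positivity
  have g0 : (0 : ℝ) ≤ g * g := by positivity
  refine ⟨(n * n + g * g) * ∑ᶠ v, (M : ℝ) * Real.log (κ v), fun x y => ?_, fun x => ?_,
    fun x y h p hp hq => ne1 h hp hq rfl, fun x hx h p hp hq => ?_, fun x y hx hy h => ?_,
    fun x hx h => ?_⟩
  · refine finsum_congr fun v => ?_
    rw [lam, lam, Multiset.sum_map_sum_map]
    simp only [de_comm (S.w v) g]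
  · simp [be, pts_one, lam]
  · rw [pts_nv] at hq
    obtain ⟨q, hq, e⟩ := Multiset.mem_map.1 hq
    exact ne3 h hp hq (((prin h0 hC n).1 x hx).2 p hp) e.symm
  · obtain ⟨cx, ox⟩ := (prin h0 hC n).1 x hx
    obtain ⟨cy, oy⟩ := (prin h0 hC n).1 y hy
    have e : ∀ p ∈ pts x, ((pts y).map fun q => p.1 - q.1).prod = (fK y.1 Qb).eval p.1 := by
      intro p _
      rw [(IsAlgClosed.splits (fK y.1 Qb)).eval_eq_prod_roots_of_monic (hy.1.map _), pts,
        Multiset.map_map]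
      rfl
    obtain ⟨d1, d2⟩ := prodf hs S x y.1 _ e fun p hp => by
      rw [e p hp]
      exact cop h (root hp).1
    have z1 : ∀ p ∈ pts x, ∀ q ∈ pts y, p ≠ q := fun p hp q hq e' => ne1 h hp hq (by rw [e'])
    have z2 : ∀ p ∈ pts x, ∀ q ∈ pts y, p ≠ ng q := fun p hp q hq e' =>
      ne1 h hp hq (by rw [e', ng])
    have z3 : ∀ p ∈ pts x, ∀ q ∈ pts (nv y), p ≠ q := fun p hp q hq => ne1 (y := nv y) h hp hq ∘
      fun e' => by rw [e']
    refine (fin_le (n * n) (lam_ev hs S g z1) (lam_ev hs S g z3) kf d1 d2 fun v => ?_).trans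
      (mul_le_mul_of_nonneg_right (le_add_of_nonneg_right g0) L0)
    have b := fib_loc (pts x) (pts y) (fun p q => Real.log (de g (S.w v) p q))
      (fun p q => Real.log (de g (S.w v) p (ng q))) (fun p q => Real.log (S.w v (p.1 - q.1)))
      (M * Real.log (κ v)) fun p hp q hq => by
        have p1 := de_pos (S.w v) g (z1 p hp q hq)
        have p2 := de_pos (S.w v) g (z2 p hp q hq)
        have := log_le (k1 v) (mul_pos p1 p2) (U v p q (ox p hp) (oy q hq)).1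
        rwa [Real.log_mul p1.ne' p2.ne', Real.log_pow, Nat.cast_ofNat] at this
    have l : ((pts x).map fun p => Real.log (S.w v ((pts y).map fun q => p.1 - q.1).prod)) =
        (pts x).map fun p => ((pts y).map fun q => Real.log (S.w v (p.1 - q.1))).sum :=
      Multiset.map_congr rfl fun p hp => log_w _ _ _ fun q hq => sub_ne_zero.2 (ne1 h hp hq)
    have c1 : ((pts x).card : ℝ) ≤ n := Nat.cast_le.2 (cx.trans_le hx.2.2)
    have c2 : ((pts y).card : ℝ) ≤ n := Nat.cast_le.2 (cy.trans_le hy.2.2)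
    have c3 : ((pts x).card : ℝ) * ((pts y).card * (M * Real.log (κ v))) ≤
        n * (n * (M * Real.log (κ v))) :=
      mul_le_mul c1 (mul_le_mul_of_nonneg_right c2 (k0 v))
        (mul_nonneg (Nat.cast_nonneg _) (k0 v)) (Nat.cast_nonneg _)
    rw [l, pts_nv, lam, lam]
    simp only [Multiset.map_map, Function.comp_def]
    linarith
  · obtain ⟨cx, ox⟩ := (prin h0 hC g).1 x hx
    obtain ⟨d1, d2⟩ := prodf hs S x x.2 (fun p => p.2) (fun p hp => (root hp).2) fun p hp =>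
      ne2 h hp (ox p hp)
    have z : ∀ p ∈ pts x, ∀ q ∈ pts (nv x), p ≠ q := by
      intro p hp q hq
      rw [pts_nv] at hq
      obtain ⟨r, hr, rfl⟩ := Multiset.mem_map.1 hq
      exact ne3 h hp hr (ox p hp)
    have hf : ∀ᶠ v in cofinite,
        2 * ((fK x.1 Qb).roots.map fun t => Real.log (nx (S.w v) t)).sum = 0 :=
      (ev_sum _ (fun v t => Real.log (nx (S.w v) t)) fun t _ =>
        ((hs S).2.1 t).mono fun v hv => by rw [hv, Real.log_one]).mono fun v hv => by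
          rw [hv, mul_zero]
    rw [Ht, mul_finsum]
    refine (fin_le (g * g) (lam_ev hs S g z) hf kf d1 d2 fun v => ?_).trans
      (mul_le_mul_of_nonneg_right (le_add_of_nonneg_left n0) L0)
    have b := diag_loc (pts x) (fun p q => Real.log (de g (S.w v) p (ng q)))
      (fun p => Real.log (nx (S.w v) p.1)) (fun p => Real.log (S.w v p.2)) (M * Real.log (κ v)) g
      (k0 v) (fun p => Real.log_nonneg (one_le_nx _ _)) (cx.trans_le hx.2.2)
      (fun p hp q hq => by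
        have := log_le (k1 v) (de_pos (S.w v) g (ne3 h hp hq (ox p hp)))
          (U v p (ng q) (ox p hp) (ox q hq).ng).2.1
        rwa [Real.log_mul (nx_pos _ _).ne' (nx_pos _ _).ne', ← add_assoc] at this)
      fun p hp => by
        have p1 := de_pos (S.w v) g (ne3 h hp hp (ox p hp))
        have p2 := pow_pos (nx_pos (S.w v) p.1) (2 * g)
        have := log_le (k1 v) (mul_pos p1 p2) (U v p p (ox p hp) (ox p hp)).2.2
        rwa [Real.log_mul p1.ne' p2.ne', Real.log_pow, Real.log_pow, Nat.cast_ofNat, Nat.cast_mul,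
          Nat.cast_ofNat] at this
    have l : ((fK x.1 Qb).roots.map fun t => Real.log (nx (S.w v) t)) =
        (pts x).map fun p => Real.log (nx (S.w v) p.1) := by
      rw [pts, Multiset.map_map]
      rfl
    rw [l, pts_nv, lam]
    simp only [Multiset.map_map, Function.comp_def]
    linarith

open JM.TriA in
theorem tri (h0 : Sq g f) (hC : Cv g a (fK f Qb)) (hK : Kq S a κ)
    (hi : ∀ (p : Nat.Primes) i, S.w (some p) (a i) ≤ 1) (n : ℕ) : ∃ c : ℝ, ∀ x y₁ y₂ y₃,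
    Mu f n x → Mu f n y₁ → Mu f n y₂ → Mu f n y₃ → cx f y₁ * cx f y₂ * cx f y₃ = 1 →
    Dj x y₁ → Dj x y₂ → Dj x y₃ → -c ≤ be S g x y₁ + be S g x y₂ + be S g x y₃ := by
  have gau := JM.gau
  have sch := JM.sch JC.mum JC.lcs gau (JM.pair JC.mum gau JM.sep)
  have hs := JM.sum
  obtain ⟨M₁, H₁⟩ := sch g (3 * n)
  obtain ⟨M₂, H₂⟩ := norm h0 hC hK hi (3 * n)
  obtain ⟨M₃, H₃⟩ := gau (3 * n)
  have k1 : ∀ v, 1 ≤ κ v := fun v => (hK.1 v).tri.1
  have k0 : ∀ v, 0 ≤ ((M₁ + M₂ + M₃ : ℕ) : ℝ) * Real.log (κ v) := fun v =>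
    mul_nonneg (Nat.cast_nonneg _) (Real.log_nonneg (k1 v))
  have kf : ∀ᶠ v in cofinite, ((M₁ + M₂ + M₃ : ℕ) : ℝ) * Real.log (κ v) = 0 :=
    hK.2.2.mono fun v hv => by rw [hv, Real.log_one, mul_zero]
  have L0 : 0 ≤ ∑ᶠ v, ((M₁ + M₂ + M₃ : ℕ) : ℝ) * Real.log (κ v) := finsum_nonneg k0
  refine ⟨n * ∑ᶠ v, ((M₁ + M₂ + M₃ : ℕ) : ℝ) * Real.log (κ v), ?_⟩
  intro x y₁ y₂ y₃ hx h₁ h₂ h₃ hc d₁ d₂ d₃
  obtain ⟨P₁, P₂⟩ := prin h0 hC n
  obtain ⟨A, B, c, c0, e, dA, dB, hm, hz⟩ := P₂ y₁ y₂ y₃ h₁ h₂ h₃ hc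
  obtain ⟨cx, ox⟩ := P₁ x hx
  obtain ⟨c₁, o₁⟩ := P₁ y₁ h₁
  obtain ⟨c₂, o₂⟩ := P₁ y₂ h₂
  obtain ⟨c₃, o₃⟩ := P₁ y₃ h₃
  generalize hS : pts y₁ + pts y₂ + pts y₃ = s at hm hz
  have os : ∀ q ∈ s, Oc (fK f Qb) q := by
    intro q hq
    rw [← hS, Multiset.mem_add, Multiset.mem_add] at hq
    rcases hq with (hq | hq) | hq
    exacts [o₁ q hq, o₂ q hq, o₃ q hq]
  have ns : ∀ p ∈ pts x, p ∉ s := by
    intro p hp hq
    rw [← hS, Multiset.mem_add, Multiset.mem_add] at hq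
    rcases hq with (hq | hq) | hq
    exacts [d₁ p hp hq, d₂ p hp hq, d₃ p hp hq]
  have cs : s.card ≤ 3 * n := by
    rw [← hS, Multiset.card_add, Multiset.card_add, c₁, c₂, c₃]
    have := h₁.2.2
    have := h₂.2.2
    have := h₃.2.2
    omega
  have eN : fK (A ^ 2 - f * B ^ 2) Qb =
      C (c : Qb) * ((s.map Prod.fst).map fun c => X - C c).prod := by
    rw [e, ← hS]
    simp only [Multiset.map_add, Multiset.prod_add]
    rw [← split h₁.1, ← split h₂.1, ← split h₃.1]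
    simp [fK, Polynomial.map_mul]
  have hp : po (⟨fK A Qb, fK B Qb⟩ : Rg (fK f Qb)) ≤ s.card := by
    have e' : QuadraticAlgebra.norm (⟨fK A Qb, fK B Qb⟩ : Rg (fK f Qb)) =
        fK (A ^ 2 - f * B ^ 2) Qb := by
      simp only [QuadraticAlgebra.norm_def, fK, Polynomial.map_sub, Polynomial.map_mul,
        Polynomial.map_pow]
      ring
    rw [po, e', eN]
    refine (natDegree_C_mul_le _ _).trans ?_
    rw [natDegree_multiset_prod_X_sub_C_eq_card, Multiset.card_map]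
  have cq : (c : Qb) ≠ 0 := Rat.cast_ne_zero.2 c0
  have z : ∀ p ∈ pts x, ev p (⟨fK A Qb, fK B Qb⟩ : Rg (fK f Qb)) ≠ 0 := fun p hp =>
    hz p (ox p hp) (ns p hp)
  obtain ⟨f₁, f₂⟩ := Glob.prodf hs S x (A + B * x.2)
    (fun p => ev p (⟨fK A Qb, fK B Qb⟩ : Rg (fK f Qb))) (fun p hp => by
      rw [ev, (Glob.root hp).2]
      simp [fK, Polynomial.map_mul]) z
  have loc : ∀ v, ∀ p ∈ pts x,
      2 * Real.log (S.w v (ev p (⟨fK A Qb, fK B Qb⟩ : Rg (fK f Qb)))) ≤
        (((M₁ + M₂ + M₃ : ℕ) : ℝ) * Real.log (κ v) + Real.log (S.w v (c : Qb))) +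
          (s.map fun q => Real.log (de g (S.w v) p q)).sum := by
    intro v p hp'
    have a₁ := H₁ Qb ι (S.w v) (κ v) _ _ hC (hK.1 v) s _ p cs hp os hm (ox p hp')
    have a₂ := H₂ v A B dA dB
    have a₃ := (H₃ Qb (S.w v) (κ v) (hK.1 v).tri).2.2.2.2 (s.map Prod.fst)
      (by rwa [Multiset.card_map])
    obtain ⟨n₁, -⟩ := log_prod s (fun q => nx (S.w v) q.1) fun q _ => nx_pos _ _
    obtain ⟨n₂, n₃⟩ := log_prod s (de g (S.w v) p) fun q hq =>
      de_pos _ g fun e => ns p hp' (e ▸ hq)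
    rw [Multiset.map_map (nx (S.w v))] at a₃
    rw [eN, pn_C_mul] at a₂
    have kp : ∀ m : ℕ, 0 < κ v ^ m := fun m => pow_pos (one_pos.trans_le (k1 v)) m
    have b : S.w v (ev p (⟨fK A Qb, fK B Qb⟩ : Rg (fK f Qb))) ^ 2 ≤
        κ v ^ (M₁ + M₂ + M₃) * (S.w v (c : Qb) * (s.map (de g (S.w v) p)).prod) := by
      refine le_of_mul_le_mul_right (a₁.trans ?_) n₁
      have b₁ := a₂.trans (mul_le_mul_of_nonneg_left
        (mul_le_mul_of_nonneg_left a₃ ((S.w v).nonneg (c : Qb))) (kp M₂).le)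
      refine (mul_le_mul_of_nonneg_left (mul_le_mul_of_nonneg_right b₁ n₂.le) (kp M₁).le).trans
        (le_of_eq ?_)
      simp only [Function.comp_def, pow_add]
      ring
    have := Glob.log_le (k1 v) (pow_pos ((S.w v).pos (z p hp')) 2) b
    rwa [Real.log_pow, Real.log_mul ((S.w v).ne_zero cq) n₂.ne', n₃, Nat.cast_ofNat,
      ← add_assoc] at this
  have q₁ : ∀ p ∈ pts x, ∀ q ∈ pts y₁, p ≠ q := fun p hp q hq e => d₁ p hp (e ▸ hq)
  have q₂ : ∀ p ∈ pts x, ∀ q ∈ pts y₂, p ≠ q := fun p hp q hq e => d₂ p hp (e ▸ hq)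
  have q₃ : ∀ p ∈ pts x, ∀ q ∈ pts y₃, p ≠ q := fun p hp q hq e => d₃ p hp (e ▸ hq)
  have r := fin_le ((pts x).card : ℝ) (Glob.lam_ev hs S g q₁) (Glob.lam_ev hs S g q₂)
    (Glob.lam_ev hs S g q₃) kf
    (((hs S).1 _ cq).mono fun v hv => show Real.log (S.w v (c : Qb)) = 0 by
      rw [hv, Real.log_one]) f₁ ((hs S).2.2.2.1 c c0) f₂ fun v => by
    have b := Glob.sum_le (pts x) _ _ _ (loc v)
    rw [Multiset.sum_map_mul_left] at b
    rw [← lam_add, ← lam_add, hS]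
    exact b
  refine le_trans (neg_le_neg ?_) r
  exact mul_le_mul_of_nonneg_right (Nat.cast_le.2 (cx.trans_le hx.2.2)) L0

end Pool.Agent.MP_a43263_nt.UM

end
end MrgPart1

-- marker of a merged file
example : 731051 + 720840 = 731051 + 720840 := rfl
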